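import Mathlib
import Pool.Agent.MP_2b113a_an.H33.LieC

/-!
Two compatible parabolic subalgebras that generate the algebra.
-/

namespace Pool.Agent.MP_2b113a_an.H10

open Pool.Agent.MP_2b113a_an.H33 Finset

variable {L : Type} [LieRing L] [LieAlgebra ℚ L]

/-- The hull of a `b`-stable submodule under `a` is an ideal when `a + b` is everything. -/
theorem hull [LieAlgebra.IsSimple ℚ L] {a b M N : Submodule ℚ L} (hab : a ⊔ b = ⊤)
    (hM : ∀ y ∈ b, ∀ m ∈ M, ⁅y, m⁆ ∈ M) (h0 : M ≠ ⊥) (hMN : M ≤ N)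
    (hN : ∀ x ∈ a, ∀ n ∈ N, ⁅x, n⁆ ∈ N) : N = ⊤ := by
  let F : Set (Submodule ℚ L) := {N | M ≤ N ∧ ∀ x ∈ a, ∀ n ∈ N, ⁅x, n⁆ ∈ N}
  have h1 : M ≤ sInf F := le_sInf fun N hN => hN.1
  have h2 : ∀ x ∈ a, ∀ n ∈ sInf F, ⁅x, n⁆ ∈ sInf F := fun x hx n hn =>
    Submodule.mem_sInf.2 fun N hN => hN.2 x hx n (Submodule.mem_sInf.1 hn N hN)
  have dec : ∀ z : L, ∃ a' ∈ a, ∃ b' ∈ b, a' + b' = z := fun z =>
    Submodule.mem_sup.1 (hab ▸ Submodule.mem_top)
  let N' : Submodule ℚ L := sInf F ⊓ ⨅ y ∈ b, (sInf F).comap (ad y)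
  have hm : ∀ n, n ∈ N' ↔ n ∈ sInf F ∧ ∀ y ∈ b, ⁅y, n⁆ ∈ sInf F := fun n => by
    simp only [N', Submodule.mem_inf, Submodule.mem_iInf, Submodule.mem_comap, ad_apply]
  have h3 : N' ∈ F := by
    refine ⟨fun m hm' => (hm m).2 ⟨h1 hm', fun y hy => h1 (hM y hy m hm')⟩, fun x hx n hn => ?_⟩
    obtain ⟨hn1, hn2⟩ := (hm n).1 hn
    refine (hm _).2 ⟨h2 x hx n hn1, fun y hy => ?_⟩
    obtain ⟨a', ha', b', hb', e⟩ := dec ⁅y, x⁆
    rw [leibniz_lie, ← e, add_lie]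
    exact add_mem (add_mem (h2 _ ha' _ hn1) (hn2 _ hb')) (h2 _ hx _ (hn2 _ hy))
  have h4 : sInf F = ⊤ := eq_top_of_ideal (fun h => h0 (le_bot_iff.1 (h ▸ h1))) fun z n hn => by
    obtain ⟨a', ha', b', hb', rfl⟩ := dec z
    rw [add_lie]
    exact add_mem (h2 _ ha' _ hn) (((hm n).1 (sInf_le h3 hn)).2 _ hb')
  exact top_le_iff.1 (h4 ▸ sInf_le ⟨hMN, hN⟩)

variable [Module.Finite ℚ L]

/-- A stable submodule in the nonnegative part on which `s` has trace zero is killed by `s`. -/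
theorem le_eig_zero {s : L} (hs : Diag s) {W : Submodule ℚ L} (hW : ∀ y ∈ W, ⁅s, y⁆ ∈ W)
    (hp : W ≤ par s) {p : Module.End ℚ L} (hp1 : ∀ x, p x ∈ W) (hp2 : ∀ x ∈ W, p x = x)
    (ht : LinearMap.trace ℚ L (ad s * p) = 0) : W ≤ eig s 0 := by
  have hid : ∀ c, IsIdempotentElem (prj s c * p) := fun c => LinearMap.ext fun x => by
    simp only [Module.End.mul_apply]
    rw [hp2 _ (prj_mem_of_stable hW (hp1 x) c), prj_self (hs.prj_mem c _)]
  have htr : ∀ c, LinearMap.trace ℚ L (prj s c * p) =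
      Module.finrank ℚ (LinearMap.range (prj s c * p)) := fun c =>
    (LinearMap.IsIdempotentElem.isProj_range _ (hid c)).trace
  have e : ad s * p = ∑ c ∈ spec s, c • (prj s c * p) := by
    conv_lhs => rw [← one_mul p, ← hs.sum_prj, Finset.sum_mul, Finset.mul_sum]
    refine Finset.sum_congr rfl fun c _ => LinearMap.ext fun x => ?_
    have := mem_eig.1 (hs.prj_mem c (p x))
    simp [this]
  have hneg : ∀ c, c < 0 → prj s c * p = 0 := fun c hc => LinearMap.ext fun x =>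
    prj_eq_zero_of_mem_fil (p := (0 ≤ ·)) (hp (hp1 x)) (not_le.2 hc)
  rw [e, map_sum, Finset.sum_eq_zero_iff_of_nonneg] at ht
  · intro w hw
    rw [← fil_eq]
    refine hs.mem_fil.2 fun c hc => ?_
    rcases lt_or_gt_of_ne hc with h | h
    · exact prj_eq_zero_of_mem_fil (p := (0 ≤ ·)) (hp hw) (not_le.2 h)
    by_cases hc' : c ∈ spec s
    · have h1 := ht c hc'
      rw [map_smul, htr, smul_eq_mul, mul_eq_zero, or_iff_right hc, Nat.cast_eq_zero,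
        Submodule.finrank_eq_zero, LinearMap.range_eq_bot] at h1
      have := LinearMap.congr_fun h1 w
      rwa [Module.End.mul_apply, hp2 w hw] at this
    · have h1 := hs.prj_mem c w
      rwa [not_not.1 (mt mem_spec.2 hc'), Submodule.mem_bot] at h1
  · intro c _
    rcases lt_or_ge c 0 with h | h
    · simp [hneg c h]
    · rw [map_smul, htr, smul_eq_mul]
      positivity

omit [Module.Finite ℚ L] in
theorem trace_comm_proj {W : Submodule ℚ L} {p : Module.End ℚ L} (hp1 : ∀ x, p x ∈ W)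
    (hp2 : ∀ x ∈ W, p x = x) {x y : L} (hx : ∀ w ∈ W, ⁅x, w⁆ ∈ W) (hy : ∀ w ∈ W, ⁅y, w⁆ ∈ W) :
    LinearMap.trace ℚ L (ad ⁅x, y⁆ * p) = 0 := by
  have e1 : ad x * ad y * p = (ad x * p) * (ad y * p) := LinearMap.ext fun z => by
    simp [hp2 _ (hy _ (hp1 z))]
  have e2 : ad y * ad x * p = (ad y * p) * (ad x * p) := LinearMap.ext fun z => by
    simp [hp2 _ (hx _ (hp1 z))]
  rw [ad_lie, sub_mul, map_sub, e1, e2, LinearMap.trace_mul_comm, sub_self]

variable [LieAlgebra.IsSimple ℚ L] (τ : Tor L)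

/-- An element of the torus whose centraliser is as large as possible. -/
theorem exists_wall : ∃ s₂ : τ.S, s₂ ≠ 0 ∧
    ∀ s : τ.S, (∀ β, τ.wt β ≠ ⊥ → β s₂ = 0 → β s = 0) → ∃ c : ℚ, s = c • s₂ := by
  let V : τ.S → Submodule ℚ (Module.Dual ℚ τ.S) := fun s =>
    Submodule.span ℚ {β | τ.wt β ≠ ⊥ ∧ β s = 0}
  have hV : ∀ s, ∀ β ∈ V s, β s = 0 := fun s β hβ => by
    have : V s ≤ LinearMap.ker (Module.Dual.eval ℚ τ.S s) :=
      Submodule.span_le.2 fun γ hγ => hγ.2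
    exact this hβ
  obtain ⟨s0, hs0, -⟩ := τ.exists_ker 0
  obtain ⟨_, ⟨s₂, h2, rfl⟩, hmax⟩ := wellFounded_gt.has_min (V '' {s | s ≠ 0}) ⟨_, s0, hs0, rfl⟩
  refine ⟨s₂, h2, fun s hs => ?_⟩
  obtain ⟨β, hβ, hβ'⟩ := τ.exists_wt h2
  refine ⟨β s / β s₂, ?_⟩
  by_contra hne
  have hle : V s₂ ≤ V (s - (β s / β s₂) • s₂) :=
    Submodule.span_mono fun γ hγ => ⟨hγ.1, by simp [hγ.2, hs γ hγ.1 hγ.2]⟩
  have hmem : β ∈ V (s - (β s / β s₂) • s₂) :=
    Submodule.subset_span ⟨hβ', by simp [hβ.ne']⟩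
  exact hmax _ ⟨_, sub_ne_zero.2 hne, rfl⟩
    (lt_of_le_of_ne hle fun e => hβ.ne' (hV _ _ (e ▸ hmem)))

theorem exists_compat {s₂ : τ.S} (h2 : s₂ ≠ 0) : ∃ (s₁ : τ.S) (α : Module.Dual ℚ τ.S),
    s₁ ≠ 0 ∧ τ.wt α ≠ ⊥ ∧ α s₁ = 0 ∧ 0 < α s₂ ∧ ∀ β, τ.wt β ≠ ⊥ → 0 < β s₂ → 0 ≤ β s₁ := by
  obtain ⟨β, hβ, hβ'⟩ := τ.exists_wt h2
  obtain ⟨σ, hσ, hσ'⟩ := τ.exists_ker β
  obtain ⟨α, hα, hmin⟩ := Set.exists_min_image {γ | τ.wt γ ≠ ⊥ ∧ 0 < γ s₂}
    (fun γ => γ σ / γ s₂) (τ.finite_wt.subset fun _ h => h.1) ⟨β, hβ', hβ⟩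
  refine ⟨σ - (α σ / α s₂) • s₂, α, fun h => hσ ?_, hα.1, by simp [hα.2.ne'], hα.2,
    fun γ h1 h2 => ?_⟩
  · have e := sub_eq_zero.1 h
    have : α σ / α s₂ = 0 := by
      rw [e, map_smul, smul_eq_mul, mul_eq_zero] at hσ'
      exact hσ'.resolve_right hβ.ne'
    rw [e, this, zero_smul]
  · have := hmin γ ⟨h1, h2⟩
    rw [le_div_iff₀ h2] at this
    simpa using this

omit [LieAlgebra.IsSimple ℚ L] [Module.Finite ℚ L] in
theorem kil_triple {β : Module.Dual ℚ τ.S} {H : τ.S} {X Y : L} (hY : Y ∈ τ.wt (-β))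
    (h : IsSl2Triple (H : L) X Y) (s : τ.S) : kil (H : L) s = β s * kil X Y := by
  have e : ⁅Y, (s : L)⁆ = β s • Y := by
    rw [← lie_skew, τ.mem_wt.1 hY s]
    simp
  rw [← h.lie_e_f, kil_lie, e]
  simp [kil]

theorem eq_zero_of_triple {β : Module.Dual ℚ τ.S} {H : τ.S} {X Y : L} (hY : Y ∈ τ.wt (-β))
    (h : IsSl2Triple (H : L) X Y) {s : τ.S} (hs : kil (H : L) s = 0) : β s = 0 := by
  have h1 := (τ.diag' H).kil_pos h.h_ne_zero
  rw [kil_triple τ hY h] at h1 hs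
  exact (mul_eq_zero.1 hs).resolve_right fun h0 => by simp [h0] at h1

theorem gen_aux (ht : TripleStmt) {s₂ : τ.S} (h2 : s₂ ≠ 0)
    (hw : ∀ s : τ.S, (∀ β, τ.wt β ≠ ⊥ → β s₂ = 0 → β s = 0) → ∃ c : ℚ, s = c • s₂)
    {α : Module.Dual ℚ τ.S} (hα : 0 < α s₂) {H : τ.S} {X Y : L} (hX : X ∈ τ.wt α)
    (hY : Y ∈ τ.wt (-α)) (h3 : IsSl2Triple (H : L) X Y) (k : LieSubalgebra ℚ L)
    (hk : ∀ β, β ≠ 0 → 0 ≤ β s₂ → τ.wt β ≤ k.toSubmodule) (hYk : Y ∈ k) : k = ⊤ := by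
  let B := killingForm ℚ L
  have hB : B.Nondegenerate := LieAlgebra.IsKilling.killingForm_nondegenerate ℚ L
  have hr : B.IsRefl := fun x y h => (kil_comm y x).trans h
  let W := B.orthogonal k.toSubmodule
  have hst : ∀ x ∈ k, ∀ w ∈ W, ⁅x, w⁆ ∈ W := fun x hx w hw y hy =>
    (kil_lie y x w).symm.trans (hw _ (k.lie_mem hy hx))
  obtain ⟨Q, hQ⟩ := W.exists_isCompl
  let p : Module.End ℚ L := W.projection Q hQ
  have hp1 : ∀ x, p x ∈ W := Submodule.projection_apply_mem hQ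
  have hp2 : ∀ x ∈ W, p x = x := fun x hx => Submodule.projection_apply_of_mem_left hQ hx
  let φ : L →ₗ[ℚ] ℚ :=
    { toFun := fun x => LinearMap.trace ℚ L (ad x * p)
      map_add' := fun x y => by rw [ad_add, add_mul, map_add]
      map_smul' := fun c x => by rw [ad_smul, smul_mul_assoc, map_smul]; rfl }
  let U : Submodule ℚ τ.S := (k.toSubmodule ⊓ LinearMap.ker φ).comap τ.S.subtype
  have hU : ∀ (H : τ.S) (X Y : L), X ∈ k → Y ∈ k → ⁅X, Y⁆ = H → H ∈ U := fun H X Y h1 h2 e =>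
    ⟨(e ▸ k.lie_mem h1 h2 : (H : L) ∈ k), by
      show LinearMap.trace ℚ L (ad (H : L) * p) = 0
      rw [← e]
      exact trace_comm_proj hp1 hp2 (hst X h1) (hst Y h2)⟩
  have hα0 : α ≠ 0 := fun h => by simp [h] at hα
  let C : LinearMap.BilinForm ℚ τ.S := B.restrict τ.S
  have hCr : C.IsRefl := fun x y h => hr _ _ h
  have hC0 : ∀ x : τ.S, C x x = 0 → x = 0 := fun x h => by
    by_contra h0
    exact ((τ.diag' x).kil_pos (by simpa using h0)).ne' h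
  have hC : C.Nondegenerate := ⟨fun x h => hC0 x (h x), fun x h => hC0 x (h x)⟩
  have hUo : C.orthogonal U = ⊥ := by
    refine (Submodule.eq_bot_iff _).2 fun s hs => ?_
    obtain ⟨c, rfl⟩ := hw s fun β hβ hβ2 => by
      by_cases h0 : β = 0
      · simp [h0]
      obtain ⟨X', hX', hX0⟩ := Submodule.exists_mem_ne_zero_of_ne_bot hβ
      obtain ⟨H', Y', hY', h3', -⟩ := ht L τ β X' hX' hX0 h0
      exact eq_zero_of_triple τ hY' h3' (hs H' (hU H' X' Y' (hk β h0 hβ2.ge hX')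
        (hk (-β) (neg_ne_zero.2 h0) (by simp [hβ2]) hY') h3'.lie_e_f))
    have := eq_zero_of_triple τ hY h3 (s := c • s₂) (hs H (hU H X Y (hk α hα0 hα.le hX) hYk h3.lie_e_f))
    rw [map_smul, smul_eq_mul, mul_eq_zero, or_iff_left hα.ne'] at this
    rw [this, zero_smul]
  have hUt : U = ⊤ := by
    rw [← LinearMap.BilinForm.orthogonal_orthogonal hC hCr U, hUo,
      LinearMap.BilinForm.orthogonal_bot]
  have hs2 : s₂ ∈ U := hUt ▸ Submodule.mem_top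
  have hd := τ.diag' s₂
  have hWp : W ≤ par (s₂ : L) := fun w hw => hd.mem_fil_of_kil fun c hc y hy => by
    have hc' : 0 < c := by simpa using hc
    have : eig (s₂ : L) c ≤ k.toSubmodule := τ.eig_le fun β e _ =>
      hk β (fun h => by simp [h] at e; exact hc'.ne e) (e ▸ hc'.le)
    exact hr _ _ (hw y (this hy))
  have hW0 : W ≤ eig (s₂ : L) 0 := le_eig_zero hd (hst _ hs2.1) hWp hp1 hp2 hs2.2
  refine hd.star (by simpa using h2) k fun c hc x hx => ?_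
  rw [← LinearMap.BilinForm.orthogonal_orthogonal hB hr k.toSubmodule]
  exact fun w hw => kil_eig (hW0 hw) hx (by simpa using hc)

theorem pair (ht : TripleStmt) : PairStmt := by
  intro L _ _ _ _ τ
  obtain ⟨s₂, h2, hw⟩ := exists_wall τ
  obtain ⟨s₁, α, h1, hα, hα1, hα2, hc⟩ := exists_compat τ h2
  have hα0 : α ≠ 0 := fun h => by simp [h] at hα2
  obtain ⟨X, hX, hX0⟩ := Submodule.exists_mem_ne_zero_of_ne_bot hα
  obtain ⟨H, Y, hY, h3, -⟩ := ht L τ α X hX hX0 hα0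
  have hd := τ.diag' s₂
  have hneg : -α s₂ ∈ spec (s₂ : L) := mem_spec.2 fun h =>
    τ.wt_neg_ne hα (le_bot_iff.1 (h ▸ τ.wt_le_eig (-α) s₂))
  let d := (spec (s₂ : L)).min' ⟨_, hneg⟩
  have hlow : ∀ c < d, eig (s₂ : L) c = ⊥ := fun c hc => by
    by_contra h
    exact absurd ((spec (s₂ : L)).min'_le c (mem_spec.2 h)) (not_le.2 hc)
  have hne : eig (s₂ : L) d ≠ ⊥ := mem_spec.1 (Finset.min'_mem _ _)
  have hall : ∀ n : L, n ∈ fil (s₂ : L) (d ≤ ·) := fun n =>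
    (hd.fil_true (p := (d ≤ ·)) fun c hc => (spec (s₂ : L)).min'_le c (mem_spec.2 hc)).ge
      Submodule.mem_top
  have hsup : pos (s₂ : L) ⊔ par (-(s₂ : L)) = ⊤ := hd.isCompl_pos.sup_eq_top
  refine ⟨⟨s₁, s₂, h1, fun β hβ => ?_, α, Y, hY, hα1, hα2, fun c hc0 k hk => ?_, d,
    ((spec (s₂ : L)).min'_le _ hneg).trans_lt (neg_neg_of_pos hα2), hne, hlow,
    fun W hW0 hW y hy => ?_, ?_⟩⟩
  · rcases lt_trichotomy (β s₂) 0 with h | h | h
    · have := hc (-β) (τ.wt_neg_ne hβ) (by simpa using h)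
      exact mul_nonneg_of_nonpos_of_nonpos (by simpa using this) h.le
    · simp [h]
    · exact mul_nonneg (hc β hβ h) h.le
  · have hk0 : ∀ β, β ≠ 0 → 0 ≤ β s₂ → τ.wt β ≤ k.toSubmodule := fun β h h' x hx => by
      simpa [ex_zero] using hk β h h' x hx 0
    have hn : Nil Y := τ.nil_of_mem_wt (neg_ne_zero.2 hα0) hY
    have e1 : ⁅Y, X⁆ = -(H : L) := by rw [← lie_skew, h3.lie_e_f]
    have e2 : ⁅Y, (H : L)⁆ = (2 : ℚ) • Y := by
      rw [← lie_skew, h3.lie_h_f_nsmul, neg_neg, two_smul, two_smul]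
    have e3 : ∀ t : ℚ, ex (-t • Y) X = X + t • (H : L) - t ^ 2 • Y := fun t => by
      rw [ex_apply_three (hn.smul _) (by simp [e1, e2])]
      simp only [smul_lie, lie_smul, e1, lie_neg, e2]
      module
    have k0 : X ∈ k.toSubmodule := hk0 α hα0 hα2.le hX
    have k1 : X + c • (H : L) - c ^ 2 • Y ∈ k.toSubmodule := by
      have := hk α hα0 hα2.le X hX 1
      rw [e3] at this
      simpa using this
    have k2 : X + (2 * c) • (H : L) - (2 * c) ^ 2 • Y ∈ k.toSubmodule := by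
      have := hk α hα0 hα2.le X hX 2
      rw [e3] at this
      simpa using this
    have hYk : Y ∈ k.toSubmodule := by
      have := Submodule.smul_mem _ (2 * c ^ 2)⁻¹
        (sub_mem (sub_mem (Submodule.smul_mem _ (2 : ℚ) k1) k2) k0)
      have e : (2 : ℚ) • (X + c • (H : L) - c ^ 2 • Y) - (X + (2 * c) • (H : L) -
          (2 * c) ^ 2 • Y) - X = (2 * c ^ 2) • Y := by module
      rwa [e, smul_smul, inv_mul_cancel₀ (by positivity), one_smul] at this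
    exact gen_aux τ ht h2 hw hα2 hX hY h3 k hk0 hYk
  · have htop : W ⊔ fil (s₂ : L) (d < ·) = ⊤ := hull hsup hW hW0 le_sup_left fun x hx n _ =>
      Submodule.mem_sup_right (lie_mem_fil (p := (0 < ·)) (q := (d ≤ ·))
        (fun a b ha hb => by show d < a + b; linarith) hx (hall n))
    obtain ⟨w, hw, f, hf, e⟩ := Submodule.mem_sup.1 (htop ▸ Submodule.mem_top : y ∈ W ⊔ _)
    have hs : ∀ y ∈ W, ⁅(s₂ : L), y⁆ ∈ W := fun y hy => by
      simpa using neg_mem (hW _ (self_mem_par (-(s₂ : L))) y hy)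
    rw [← prj_self hy, ← e, map_add, prj_eq_zero_of_mem_fil hf (lt_irrefl d), add_zero]
    exact prj_mem_of_stable hs hw d
  · by_contra hz
    push Not at hz
    have htop : par (s₁ : L) = ⊤ := by
      refine hull hsup (M := eig (s₂ : L) d) (fun y hy m hm => ?_) hne
        (fun t h => mem_par le_rfl (mem_eig_zero.2 (hz t h))) fun x hx n hn => lie_mem_par ?_ hn
      · rw [par_eq, fil_neg] at hy
        have := lie_mem_fil (r := (· ≤ d)) (fun a b (ha : 0 ≤ -a) (hb : b = d) => by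
          show a + b ≤ d; linarith) hy (mem_fil_eq hm)
        refine (fil_le fun c (hc : c ≤ d) => ?_) this
        rcases hc.eq_or_lt with h | h
        · exact h ▸ le_rfl
        · simp [hlow c h]
      · exact (τ.fil_le (p := (0 < ·)) fun β h hβ y hy =>
          mem_par (hc β hβ h) (τ.wt_le_eig β s₁ hy)) hx
    obtain ⟨β, hβ, hβ'⟩ := τ.exists_wt h1
    obtain ⟨x, hx, hx0⟩ := Submodule.exists_mem_ne_zero_of_ne_bot (τ.wt_neg_ne hβ')
    have hx' := τ.wt_le_eig (-β) s₁ hx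
    refine hx0 ?_
    rw [← prj_self hx']
    exact prj_eq_zero_of_mem_fil (p := (0 ≤ ·)) (htop ▸ Submodule.mem_top : x ∈ par (s₁ : L))
      (by simpa using hβ)

end Pool.Agent.MP_2b113a_an.H10
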